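import Pool.Agent.MNS.Blk2
import Pool.Prelude.Def_F_15914c44

/-!
# MP_73b4f2_co: unions of translates of monotone and symmetric sets
-/

set_option autoImplicit false

open Nd8c27d02
open scoped Pointwise

namespace Pool.Agent.Results.MP_73b4f2_co.BlockMonotone

/-- The coordinates with respect to the basis `b` are divided by `β` into `q` blocks `some l` and
the block `none`. The set `D` is block monotone if, in the block `none`, nonzero coordinates of a
member may be replaced by zero, and if, in each of the `q` other blocks, only the number of nonzero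
coordinates matters. -/
def IsBlockMonotone {n q : ℕ} (b : Module.Basis (Fin n) (ZMod 2) (𝔽₂ n))
    (β : Fin n → Option (Fin q)) (D : Set (𝔽₂ n)) : Prop :=
  ∀ x ∈ D, ∀ y, (∀ j, β j = none → b.repr y j ≠ 0 → b.repr x j ≠ 0) →
    (∀ l : Fin q, (Finset.univ.filter fun j => β j = some l ∧ b.repr y j ≠ 0).card =
      (Finset.univ.filter fun j => β j = some l ∧ b.repr x j ≠ 0).card) → y ∈ D

/-- Let `A` be the union of `m` translates of sets which are block monotone with `q` symmetric
blocks (the blocks may be different for the different sets), and let `A + S` be everything,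
`|S| = K`. Then `A + A` contains a coset of codimension at most `r + 2 q (r + 1)`, if
`((q + 1) m K - 1) log ((8 q + 1) (m K)^2) < (r + 1)^2`. -/
theorem result (n K m q : ℕ) (b : Module.Basis (Fin n) (ZMod 2) (𝔽₂ n))
    (β : Fin m → Fin n → Option (Fin q)) (D : Fin m → Set (𝔽₂ n))
    (hD : ∀ i, IsBlockMonotone b (β i) (D i)) (τ : Fin m → 𝔽₂ n) (A : Set (𝔽₂ n))
    (hA : A = ⋃ i, ({τ i} + D i)) (S : Finset (𝔽₂ n)) (hK : S.card = K)
    (hS : A + (S : Set (𝔽₂ n)) = Set.univ) (r : ℕ)
    (hr : (((q : ℝ) + 1) * (m * K) - 1) * Real.log ((8 * q + 1) * ((m : ℝ) * K) ^ 2) <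
      ((r : ℝ) + 1) ^ 2) :
    ∃ V : AffineSubspace (ZMod 2) (𝔽₂ n), (V : Set (𝔽₂ n)).Nonempty ∧
      (V : Set (𝔽₂ n)) ⊆ A + A ∧
      n ≤ Module.finrank (ZMod 2) V.direction + (r + 2 * q * (r + 1)) := by
  classical
  set e : 𝔽₂ n ≃ₗ[ZMod 2] (Fin n → ZMod 2) := b.equivFun with he
  have her : ∀ x j, b.repr x j = e x j := fun x j => rfl
  have hself : ∀ w : 𝔽₂ n, w + w = 0 := by
    intro w
    funext j
    have : ∀ p : ZMod 2, p + p = 0 := by decide
    exact this (w j)
  have hself' : ∀ w : Fin n → ZMod 2, w + w = 0 := by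
    intro w
    funext j
    have : ∀ p : ZMod 2, p + p = 0 := by decide
    exact this (w j)
  -- the covering
  have hcov : ∀ u : Fin n → ZMod 2, ∃ k : Fin m × S,
      u + (e (τ k.1) + e k.2.1) ∈ {w : Fin n → ZMod 2 | e.symm w ∈ D k.1} := by
    intro u
    have h1 : e.symm u ∈ A + (S : Set (𝔽₂ n)) := by
      rw [hS]
      trivial
    obtain ⟨a, ha, s, hs, h2⟩ := h1
    rw [hA, Set.mem_iUnion] at ha
    obtain ⟨i, p, hp, x, hx, h3⟩ := ha
    rw [Set.mem_singleton_iff] at hp
    refine ⟨(i, ⟨s, hs⟩), ?_⟩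
    show e.symm (u + (e (τ i) + e s)) ∈ D i
    have h4 : e.symm (u + (e (τ i) + e s)) = x := by
      rw [map_add, map_add, e.symm_apply_apply, e.symm_apply_apply, ← h2, ← hp]
      simp only at h3 ⊢
      rw [← h3]
      calc p + x + s + (p + s) = x + ((p + p) + (s + s)) := by abel
        _ = x := by rw [hself, hself, add_zero, add_zero]
    rw [h4]
    exact hx
  obtain ⟨k0, _⟩ := hcov 0
  have hne : Nonempty (Fin m × S) := ⟨k0⟩
  have hcard : (Fintype.card (Fin m × S) : ℝ) = m * K := by
    rw [Fintype.card_prod, Fintype.card_fin, Fintype.card_coe, hK]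
    push_cast
    rfl
  obtain ⟨k, T0, W, hW, hT⟩ := Pool.Agent.MNS.blockZ (fun k : Fin m × S => e (τ k.1) + e k.2.1)
    (fun k => β k.1) (fun k => {w | e.symm w ∈ D k.1}) (by
      intro k X hX P hP
      refine hD k.1 _ hX _ ?_ ?_
      · intro j hj h1
        rw [her, e.apply_symm_apply] at h1 ⊢
        exact hP.1 j hj h1
      · intro l
        have h1 := hP.2 l
        unfold Pool.Agent.MNS.wt at h1
        simp only [her, e.apply_symm_apply]
        exact h1) hcov r (by rw [hcard]; exact hr)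
  refine ⟨AffineSubspace.mk' (e.symm T0) (W.map (e.symm : (Fin n → ZMod 2) →ₗ[ZMod 2] 𝔽₂ n)),
    ?_, ?_, ?_⟩
  · exact AffineSubspace.mk'_nonempty _ _
  · intro x hx
    obtain ⟨t, ht, hxt⟩ := AffineSubspace.mem_mk'.1 hx
    have hxt' : e.symm t = x - e.symm T0 := hxt
    obtain ⟨P, hP, Q, hQ, h1⟩ := hT t ht
    have h2 : e.symm P + e.symm Q = x := by
      rw [← map_add, h1, map_add, hxt']
      abel
    have hmem : ∀ y ∈ D k.1, τ k.1 + y ∈ A := by
      intro y hy
      rw [hA, Set.mem_iUnion]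
      exact ⟨k.1, Set.add_mem_add (Set.mem_singleton _) hy⟩
    have h3 : x = (τ k.1 + e.symm P) + (τ k.1 + e.symm Q) := by
      calc x = e.symm P + e.symm Q := h2.symm
        _ = (τ k.1 + τ k.1) + (e.symm P + e.symm Q) := by rw [hself, zero_add]
        _ = _ := by abel
    rw [h3]
    exact Set.add_mem_add (hmem _ hP) (hmem _ hQ)
  · rw [AffineSubspace.direction_mk', LinearEquiv.finrank_map_eq]
    exact hW

end Pool.Agent.Results.MP_73b4f2_co.BlockMonotone
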