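import Pool.Agent.H33.FourCol

/-!
# MP_73b4f2_co: sets with a complement of size four
-/

set_option autoImplicit false

open scoped Pointwise

namespace Pool.Agent.Results.MP_73b4f2_co.FourTranslates

/-- Let `A + S` be everything and `|S| ≤ 4`. There is one subspace `V` of codimension at most two
such that no element of `V` outside `A + A` is a sum of two elements outside `A + A`; in
particular, if all elements outside `A + A` are such sums, then `V ⊆ A + A`; and `V` misses the
support of every weight `w ≥ 0` carried by the complement of `A + A` all of whose Fourier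
coefficients are at least minus one third of its total mass. -/
theorem result (n : ℕ) (A : Set (Fin n → ZMod 2)) (S : Finset (Fin n → ZMod 2))
    (hK : S.card ≤ 4) (hS : A + (S : Set (Fin n → ZMod 2)) = Set.univ) :
    ∃ V : Submodule (ZMod 2) (Fin n → ZMod 2), n ≤ Module.finrank (ZMod 2) V + 2 ∧
      (∀ z ∈ V, z ∉ A + A → ∀ p q : Fin n → ZMod 2, p ∉ A + A → q ∉ A + A → z ≠ p + q) ∧
      ((∀ z, z ∉ A + A → ∃ p q : Fin n → ZMod 2, p ∉ A + A ∧ q ∉ A + A ∧ z = p + q) →
        (V : Set (Fin n → ZMod 2)) ⊆ A + A) ∧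
      (∀ w : (Fin n → ZMod 2) → ℝ, (∀ z, 0 ≤ w z) → (∀ z ∈ A + A, w z = 0) →
        (∀ ξ : Fin n → ZMod 2,
          -(∑ z, w z) / 3 ≤ ∑ z, w z * (-1) ^ (∑ i, ξ i * z i).val) →
        ∀ z ∈ V, w z = 0) := by
  classical
  -- the colours
  have hcov : ∀ x : Fin n → ZMod 2, ∃ s : S, ∃ a ∈ A, a + s.1 = x := by
    intro x
    have h1 : x ∈ A + (S : Set (Fin n → ZMod 2)) := by
      rw [hS]
      trivial
    obtain ⟨a, ha, s, hs, h2⟩ := h1
    exact ⟨⟨s, hs⟩, a, ha, h2⟩
  choose c a ha hc using hcov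
  obtain ⟨φ⟩ : Nonempty (S ↪ ZMod 2 × ZMod 2) := by
    refine Function.Embedding.nonempty_of_card_le ?_
    rw [Fintype.card_coe]
    simpa using hK
  have hself := fun x : Fin n → ZMod 2 => Pool.Agent.H33.FourCol.add_self_zero x
  have hcol : ∀ z ∈ (A + A)ᶜ, ∀ x, φ (c x) ≠ φ (c (x + z)) := by
    intro z hz x hcx
    have h1 : c x = c (x + z) := φ.injective hcx
    apply hz
    have h2 : z = a x + a (x + z) := by
      have h3 : z = x + (x + z) := by rw [← add_assoc, hself, zero_add]
      have h4 : x + (x + z) = (a x + (c x).1) + (a (x + z) + (c (x + z)).1) := by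
        rw [hc x, hc (x + z)]
      calc z = x + (x + z) := h3
        _ = (a x + (c x).1) + (a (x + z) + (c (x + z)).1) := h4
        _ = (a x + (c x).1) + (a (x + z) + (c x).1) := by rw [← h1]
        _ = a x + a (x + z) + ((c x).1 + (c x).1) := by abel
        _ = a x + a (x + z) := by rw [hself, add_zero]
    rw [h2]
    exact Set.add_mem_add (ha _) (ha _)
  obtain ⟨V, hV, hw⟩ := Pool.Agent.H33.FourCol.main (A + A)ᶜ (fun x => φ (c x)) hcol
  have hW : ∀ w : (Fin n → ZMod 2) → ℝ, (∀ z, 0 ≤ w z) → (∀ z ∈ A + A, w z = 0) →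
      (∀ ξ : Fin n → ZMod 2, -(∑ z, w z) / 3 ≤ ∑ z, w z * (-1) ^ (∑ i, ξ i * z i).val) →
      ∀ z ∈ V, w z = 0 := by
    intro w h0 h1 h2
    refine hw w h0 (fun z hz => h1 z ?_) h2
    by_contra h3
    exact hz h3
  have hP : ∀ z ∈ V, z ∉ A + A → ∀ p q : Fin n → ZMod 2, p ∉ A + A → q ∉ A + A →
      z ≠ p + q := by
    intro z hz hzA p q hp hq hpq
    have h1 := hW (fun y => (if y = z then (1 : ℝ) else 0) + (if y = p then (1 : ℝ) else 0) +
      (if y = q then (1 : ℝ) else 0)) ?_ ?_ ?_ z hz
    · simp only [if_true] at h1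
      have h2 : (0 : ℝ) ≤ if z = p then (1 : ℝ) else 0 := by split_ifs <;> norm_num
      have h3 : (0 : ℝ) ≤ if z = q then (1 : ℝ) else 0 := by split_ifs <;> norm_num
      linarith
    · intro y
      positivity
    · intro y hy
      have e1 : y ≠ z := fun h => hzA (h ▸ hy)
      have e2 : y ≠ p := fun h => hp (h ▸ hy)
      have e3 : y ≠ q := fun h => hq (h ▸ hy)
      simp only [if_neg e1, if_neg e2, if_neg e3, add_zero]
    · intro ξ
      have e1 : ∀ u : Fin n → ZMod 2, ∑ y, (if y = u then (1 : ℝ) else 0) = 1 := by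
        intro u
        simp
      have e2 : ∀ u : Fin n → ZMod 2, ∑ y : Fin n → ZMod 2, (if y = u then (1 : ℝ) else 0) *
          Pool.Agent.H33.FourCol.chi ξ y = Pool.Agent.H33.FourCol.chi ξ u := by
        intro u
        simp
      have e3 : ∑ y : Fin n → ZMod 2, ((if y = z then (1 : ℝ) else 0) +
          (if y = p then (1 : ℝ) else 0) + (if y = q then (1 : ℝ) else 0)) *
          Pool.Agent.H33.FourCol.chi ξ y = Pool.Agent.H33.FourCol.chi ξ z +
          Pool.Agent.H33.FourCol.chi ξ p + Pool.Agent.H33.FourCol.chi ξ q := by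
        simp only [add_mul]
        rw [Finset.sum_add_distrib, Finset.sum_add_distrib, e2, e2, e2]
      have e4 : ∑ y : Fin n → ZMod 2, ((if y = z then (1 : ℝ) else 0) +
          (if y = p then (1 : ℝ) else 0) + (if y = q then (1 : ℝ) else 0)) = 3 := by
        rw [Finset.sum_add_distrib, Finset.sum_add_distrib, e1, e1, e1]
        norm_num
      rw [e4]
      change -3 / 3 ≤ ∑ y : Fin n → ZMod 2, ((if y = z then (1 : ℝ) else 0) +
          (if y = p then (1 : ℝ) else 0) + (if y = q then (1 : ℝ) else 0)) *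
          Pool.Agent.H33.FourCol.chi ξ y
      rw [e3, hpq, Pool.Agent.H33.FourCol.chi_add_right]
      rcases Pool.Agent.H33.FourCol.chi_cases ξ p with h | h <;>
        rcases Pool.Agent.H33.FourCol.chi_cases ξ q with h' | h' <;> rw [h, h'] <;> norm_num
  refine ⟨V, hV, hP, ?_, hW⟩
  intro hall z hz
  by_contra hzA
  obtain ⟨p, q, hp, hq, hpq⟩ := hall z hzA
  exact hP z hz hzA p q hp hq hpq

end Pool.Agent.Results.MP_73b4f2_co.FourTranslates
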