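import Pool.Agent.MNS.Poly
import Pool.Prelude.Def_F_15914c44

/-!
# MP_73b4f2_co: unions of intersections of few halfspaces
-/

set_option autoImplicit false

open Nd8c27d02
open scoped Pointwise

namespace Pool.Agent.Results.MP_73b4f2_co.Halfspaces

/-- The value at `x` of the real linear form with the coefficients `a`: the sum of the `a j` over the
coordinates `j` of `x`, with respect to the basis `b`, which are not zero. -/
noncomputable def form {n : ℕ} (b : Module.Basis (Fin n) (ZMod 2) (𝔽₂ n)) (a : Fin n → ℝ)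
    (x : 𝔽₂ n) : ℝ := ∑ j, if b.repr x j = 0 then 0 else a j

/-- Let `A` be a union of `m` sets each of which is the intersection of `p` halfspaces, that is of
sets of the form `{x | form b a x ≤ θ}`, and let `A + S` be everything, `|S| = K`. Then `A + A`
contains a subspace of codimension at most `50 m p (m K p)^4`. -/
theorem result (n K m p : ℕ) (b : Module.Basis (Fin n) (ZMod 2) (𝔽₂ n))
    (a : Fin m → Fin p → Fin n → ℝ) (θ : Fin m → Fin p → ℝ) (A : Set (𝔽₂ n))
    (hA : A = ⋃ i, {x | ∀ l, form b (a i l) x ≤ θ i l}) (S : Finset (𝔽₂ n)) (hK : S.card = K)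
    (hS : A + (S : Set (𝔽₂ n)) = Set.univ) :
    ∃ V : Submodule (ZMod 2) (𝔽₂ n), (V : Set (𝔽₂ n)) ⊆ A + A ∧
      n ≤ Module.finrank (ZMod 2) V + 50 * (m * p) * (m * K * p) ^ 4 := by
  classical
  set e : 𝔽₂ n ≃ₗ[ZMod 2] (Fin n → ZMod 2) := b.equivFun with he
  have her : ∀ x j, b.repr x j = e x j := fun x j => rfl
  have hform : ∀ (c : Fin n → ℝ) (x : 𝔽₂ n),
      form b c x = Pool.Agent.MNS.ps c Finset.univ (e x) := fun c x => rfl
  have hself : ∀ w : 𝔽₂ n, w + w = 0 := by
    intro w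
    funext j
    have : ∀ p : ZMod 2, p + p = 0 := by decide
    exact this (w j)
  -- the covering
  have hcov : ∀ u : Fin n → ZMod 2, ∃ k : Fin m × S, ∀ l,
      Pool.Agent.MNS.ps (a k.1 l) Finset.univ (u + e k.2.1) ≤ θ k.1 l := by
    intro u
    have h1 : e.symm u ∈ A + (S : Set (𝔽₂ n)) := by
      rw [hS]
      trivial
    obtain ⟨x, hx, s, hs, h2⟩ := h1
    rw [hA, Set.mem_iUnion] at hx
    obtain ⟨i, hi⟩ := hx
    refine ⟨(i, ⟨s, hs⟩), fun l => ?_⟩
    have h3 : u + e s = e x := by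
      have h4 : u = e (x + s) := by
        have h5 : x + s = e.symm u := h2
        rw [h5, e.apply_symm_apply]
      rw [h4, ← map_add]
      congr 1
      calc x + s + s = x + (s + s) := by abel
        _ = x := by rw [hself, add_zero]
    show Pool.Agent.MNS.ps (a i l) Finset.univ (u + e s) ≤ θ i l
    rw [h3, ← hform]
    exact hi l
  obtain ⟨k0, _⟩ := hcov 0
  have hne : Nonempty (Fin m × S) := ⟨k0⟩
  have hcard : Fintype.card (Fin m × S) = m * K := by
    rw [Fintype.card_prod, Fintype.card_fin, Fintype.card_coe, hK]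
  have hM : 1 ≤ m * K := by
    rw [← hcard]
    exact Fintype.card_pos
  obtain ⟨k, Hd, hHd, hT⟩ := Pool.Agent.MNS.polyZ (fun k : Fin m × S => e k.2.1)
    (fun k => k.1) a θ hcov (25 * (m * K * p) ^ 4) (by
      rw [hcard]
      have h1 : p * (m * K) * (m * K * p + 4 * p + 2) ≤ 7 * (m * K * p) ^ 2 := by
        rcases Nat.eq_zero_or_pos p with h0 | h0
        · rw [h0]
          simp
        · have h2 : m * K * p + 4 * p + 2 ≤ 7 * (m * K * p) := by
            have h3 : p ≤ m * K * p := Nat.le_mul_of_pos_left p hM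
            omega
          calc p * (m * K) * (m * K * p + 4 * p + 2) ≤ p * (m * K) * (7 * (m * K * p)) :=
                Nat.mul_le_mul_left _ h2
            _ = 7 * (m * K * p) ^ 2 := by ring
      calc (p * (m * K) * (m * K * p + 4 * p + 2)) ^ 2 ≤ (7 * (m * K * p) ^ 2) ^ 2 :=
            Nat.pow_le_pow_left h1 2
        _ = 49 * (m * K * p) ^ 4 := by ring
        _ ≤ 50 * (m * K * p) ^ 4 := Nat.mul_le_mul_right _ (by norm_num)
        _ = 2 * (25 * (m * K * p) ^ 4) := by ring)
  -- the subspace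
  obtain ⟨W, hW1, hW2⟩ := Pool.Agent.MNS.exists_sub0 Hd
  refine ⟨W.map (e.symm : (Fin n → ZMod 2) →ₗ[ZMod 2] 𝔽₂ n), ?_, ?_⟩
  · rintro x ⟨t, ht, hxt⟩
    have hxt' : e.symm t = x := hxt
    obtain ⟨P, Q, h1, h2, h3⟩ := hT t (hW2 t ht)
    have hmem : ∀ w : Fin n → ZMod 2,
        (∀ l, Pool.Agent.MNS.ps (a k.1 l) Finset.univ w ≤ θ k.1 l) → e.symm w ∈ A := by
      intro w hw
      rw [hA, Set.mem_iUnion]
      refine ⟨k.1, fun l => ?_⟩
      rw [hform, e.apply_symm_apply]
      exact hw l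
    rw [← hxt', ← h1, map_add]
    exact Set.add_mem_add (hmem P h2) (hmem Q h3)
  · rw [LinearEquiv.finrank_map_eq]
    have h1 : m * p * (2 * (25 * (m * K * p) ^ 4)) = 50 * (m * p) * (m * K * p) ^ 4 := by ring
    omega

end Pool.Agent.Results.MP_73b4f2_co.Halfspaces
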