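import Pool.Agent.MNS.Fun
import Pool.Prelude.Def_F_15914c44

/-!
# MP_73b4f2_co: nearly full subsums of every family in the sumset of a set with a small complement
-/

set_option autoImplicit false

open Nd8c27d02
open scoped Pointwise

namespace Pool.Agent.Results.MP_73b4f2_co.NearlyFullSums

/-- Let `A + S` be everything, `|S| = K`, and `r` a natural number with
`2 (K - 1) log K < (r + 1)^2`. For every finite family of vectors there is a subfamily, which omits
at most `r` members, with sum in `A + A`. -/
theorem result (n K : ℕ) (A : Set (𝔽₂ n)) (S : Finset (𝔽₂ n)) (hK : S.card = K)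
    (hS : A + (S : Set (𝔽₂ n)) = Set.univ) (r : ℕ)
    (hr : 2 * ((K : ℝ) - 1) * Real.log K < ((r : ℝ) + 1) ^ 2) (N : ℕ) (v : Fin N → 𝔽₂ n) :
    ∃ I : Finset (Fin N), N ≤ I.card + r ∧ ∑ i ∈ I, v i ∈ A + A := by
  classical
  -- the vector of a choice of coefficients
  set L : (Fin N → ZMod 2) → 𝔽₂ n := fun u => ∑ i, u i • v i with hL
  have hcov : ∀ u : Fin N → ZMod 2, ∃ s : S, ∃ a ∈ A, a + s.1 = L u := by
    intro u
    have h1 : L u ∈ A + (S : Set (𝔽₂ n)) := by
      rw [hS]
      trivial
    obtain ⟨a, ha, s, hs, h2⟩ := h1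
    exact ⟨⟨s, hs⟩, a, ha, h2⟩
  choose c a ha hc using hcov
  haveI : Nonempty S := ⟨c 0⟩
  obtain ⟨x, y, h1, h2⟩ := Pool.Agent.MNS.colour N c r (by
    rw [Fintype.card_coe, hK]
    exact hr)
  refine ⟨Finset.univ.filter fun i => x i ≠ y i, ?_, ?_⟩
  · have h3 : hammingDist x (y + 1) = (Finset.univ.filter fun i => ¬ x i ≠ y i).card := by
      unfold hammingDist
      congr 1
      refine Finset.filter_congr fun i _ => ?_
      have h4 : ∀ p q : ZMod 2, p ≠ q + 1 ↔ ¬ p ≠ q := by decide
      exact h4 (x i) (y i)
    have h4 := Finset.card_filter_add_card_filter_not (s := (Finset.univ : Finset (Fin N)))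
      (fun i => x i ≠ y i)
    rw [Finset.card_univ, Fintype.card_fin] at h4
    omega
  · have h3 : ∑ i ∈ Finset.univ.filter (fun i => x i ≠ y i), v i = a x + a y := by
      have h5 : ∀ w : 𝔽₂ n, w + w = 0 := by
        intro w
        funext j
        have : ∀ p : ZMod 2, p + p = 0 := by decide
        exact this (w j)
      have h6 : L x + L y = a x + a y := by
        rw [← hc x, ← hc y, h1]
        calc a x + (c y).1 + (a y + (c y).1) = a x + a y + ((c y).1 + (c y).1) := by abel
          _ = a x + a y := by rw [h5, add_zero]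
      rw [← h6, hL]
      simp only
      rw [← Finset.sum_add_distrib, Finset.sum_filter]
      refine Finset.sum_congr rfl fun i _ => ?_
      rw [← add_smul]
      have h7 : ∀ p q : ZMod 2, p + q = if p ≠ q then 1 else 0 := by decide
      rw [h7]
      split_ifs
      · rw [one_smul]
      · rw [zero_smul]
    rw [h3]
    exact Set.add_mem_add (ha x) (ha y)

end Pool.Agent.Results.MP_73b4f2_co.NearlyFullSums
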